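import Pool.Agent.H19.SL.Defs

/-!
# Module Bas: elementary facts

* `s0_pos`: `surf d` is not the zero measure: otherwise `surf_formula` (H25/Kin/Sph) with `F = 1` gives `volume {nsq z < 1} = 0`, but this set is open and contains `0` (or `polar` with `G = 1`). `IsFiniteMeasure (surf d)` is an instance.
* `exp_int`: `exp(-c|v|²)` is integrable (proof as in H25/Kin/Macro2 line 63: `exp_RD`; or `RD.integrable`), also times polynomials (`RD.mul_PG`).
* `bl_meas`, `bl_vol`: `Bl d R` is closed (`continuous_len`) and contained in the sup norm ball (`norm_le_len`).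
* `kc_*`: `0 ≤ k ≤ K gau`, `gau ≤ 1`; `K ≥ 0` because `0 ≤ k 0 ≤ K gau 0`.
* `kk_int`: `k(v)k(w)` is integrable for `mu3 d = volume.prod (volume.prod (surf d))` (`Integrable.mul_prod`, constants are integrable for the finite measure `surf d`), times a bounded measurable function.
* `kc_core`: `∫_{|v|>R} k ≤ K ∫_{|v|>R} gau → 0` (`tendsto_setIntegral_of_antitone`, or `exp(-|v|²) ≤ exp(-R²/2) exp(-|v|²/2)`).
-/

set_option autoImplicit false

open MeasureTheory Set Filter Topology Pool.Agent.H25.Kin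
open Pool.Agent.H15.AV (gau)
open Pool.Agent.H37.LT

namespace Pool.Agent.H19.SL

variable {d : ℕ}

theorem s0_pos (hd : 1 ≤ d) : 0 < s0 d := by
  have h1 : (surf d) univ = d * volume {z : Vec d | nsq z < 1} := by
    have h := surf_formula hd (F := fun _ : Vec d => 1) measurable_const
    rw [lintegral_const, lintegral_const, Measure.restrict_apply MeasurableSet.univ, univ_inter,
      one_mul, one_mul] at h
    exact h
  have h2 : 0 < volume {z : Vec d | nsq z < 1} := by
    have ho : IsOpen {z : Vec d | nsq z < 1} := isOpen_lt continuous_sq continuous_const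
    refine ho.measure_pos volume ⟨0, ?_⟩
    show nsq (0 : Vec d) < 1
    unfold nsq
    simp
  have h3 : (surf d) univ ≠ 0 := by
    rw [h1]
    have hd0 : ((d : ENNReal)) ≠ 0 := by
      have : d ≠ 0 := by omega
      exact_mod_cast this
    exact mul_ne_zero hd0 h2.ne'
  unfold s0
  exact ENNReal.toReal_pos h3 (measure_ne_top _ _)

theorem exp_int {c : ℝ} (hc : 0 < c) : Integrable (fun v : Vec d => Real.exp (-(c * nsq v))) := by
  have h := (exp_RD (d := d) hc).integrable
    (Real.continuous_exp.comp (continuous_const.mul continuous_sq)).aestronglyMeasurable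
  refine h.congr (Eventually.of_forall fun v => ?_)
  show Real.exp (-c * nsq v) = Real.exp (-(c * nsq v))
  rw [neg_mul]

theorem exp_pos_int {c : ℝ} (hc : 0 < c) : 0 < ∫ v : Vec d, Real.exp (-(c * nsq v)) := by
  rw [integral_pos_iff_support_of_nonneg (fun v => (Real.exp_pos _).le) (exp_int hc)]
  have h1 : Function.support (fun v : Vec d => Real.exp (-(c * nsq v))) = univ := by
    ext v
    simp [Function.mem_support, (Real.exp_pos _).ne']
  rw [h1]
  exact isOpen_univ.measure_pos volume ⟨0, mem_univ _⟩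

theorem nsq_exp_int {c : ℝ} (hc : 0 < c) :
    Integrable (fun v : Vec d => nsq v * Real.exp (-(c * nsq v))) := by
  have h := ((exp_RD (d := d) hc).mul_PG PG.nsq).integrable
    ((Real.continuous_exp.comp (continuous_const.mul continuous_sq)).mul
      continuous_sq).aestronglyMeasurable
  refine h.congr (Eventually.of_forall fun v => ?_)
  show Real.exp (-c * nsq v) * nsq v = nsq v * Real.exp (-(c * nsq v))
  rw [neg_mul, mul_comm]

private theorem Bas_gau_eq (v : Vec d) : gau v = Real.exp (-(1 * nsq v)) := by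
  rw [one_mul]; rfl

private theorem Bas_gau_pos (v : Vec d) : 0 < gau v := Real.exp_pos _

private theorem Bas_gau_le (v : Vec d) : gau v ≤ 1 := by
  have h := sq_nonneg' v
  show Real.exp (-nsq v) ≤ 1
  rw [Real.exp_le_one_iff]
  linarith

theorem gau_int : Integrable (gau (d := d)) :=
  (exp_int (d := d) one_pos).congr (Eventually.of_forall fun v => (Bas_gau_eq v).symm)

theorem gau_mass : 0 < ∫ v : Vec d, gau v := by
  rw [integral_congr_ae (Eventually.of_forall Bas_gau_eq)]
  exact exp_pos_int one_pos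

theorem bl_meas (R : ℝ) : MeasurableSet (Bl d R) :=
  (isClosed_le continuous_len continuous_const).measurableSet

theorem bl_vol (R : ℝ) : volume (Bl d R) < ⊤ := by
  refine (measure_mono ?_).trans_lt (measure_closedBall_lt_top (x := (0 : Vec d)) (r := R))
  intro v hv
  rw [mem_closedBall_zero_iff]
  exact (norm_le_len v).trans hv

theorem kc_K {K c : ℝ} {k : Vec d → ℝ} (h : KC K c k) : 0 ≤ K := by
  by_contra hK
  have h1 := (h.nn 0).trans (h.le 0)
  have h2 := mul_neg_of_neg_of_pos (not_le.1 hK) (Bas_gau_pos (0 : Vec d))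
  linarith

theorem kc_le {K c : ℝ} {k : Vec d → ℝ} (h : KC K c k) (v : Vec d) : k v ≤ K :=
  (h.le v).trans (mul_le_of_le_one_right (kc_K h) (Bas_gau_le v))

theorem kc_int {K c : ℝ} {k : Vec d → ℝ} (h : KC K c k) : Integrable k := by
  refine Integrable.mono' (gau_int.const_mul K) h.cont.aestronglyMeasurable
    (Eventually.of_forall fun v => ?_)
  rw [Real.norm_eq_abs, abs_of_nonneg (h.nn v)]
  exact h.le v

theorem kc_mass {K c : ℝ} {k : Vec d → ℝ} (h : KC K c k) : ∫ v, k v ≤ K * ∫ v : Vec d, gau v := by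
  rw [← integral_const_mul]
  exact integral_mono (kc_int h) (gau_int.const_mul K) h.le

theorem kc_sq {K c : ℝ} {k : Vec d → ℝ} (h : KC K c k) : Integrable (fun v => k v ^ 2) ∧
    ∫ v, k v ^ 2 ≤ K ^ 2 * ∫ v : Vec d, gau v := by
  have h1 : ∀ v, k v ^ 2 ≤ K ^ 2 * gau v := by
    intro v
    have h2 : k v ^ 2 ≤ (K * gau v) ^ 2 := pow_le_pow_left₀ (h.nn v) (h.le v) 2
    have h3 : gau v ^ 2 ≤ gau v := by
      rw [pow_two]
      exact mul_le_of_le_one_left (Bas_gau_pos v).le (Bas_gau_le v)
    rw [mul_pow] at h2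
    exact h2.trans (mul_le_mul_of_nonneg_left h3 (sq_nonneg K))
  have h2 : Integrable (fun v => k v ^ 2) := by
    refine Integrable.mono' (gau_int.const_mul (K ^ 2)) (h.cont.pow 2).aestronglyMeasurable
      (Eventually.of_forall fun v => ?_)
    rw [Real.norm_eq_abs, abs_of_nonneg (sq_nonneg _)]
    exact h1 v
  refine ⟨h2, ?_⟩
  rw [← integral_const_mul]
  exact integral_mono h2 (gau_int.const_mul (K ^ 2)) h1

theorem kk_int {K c : ℝ} {k : Vec d → ℝ} (h : KC K c k) {F : Vec d × Vec d × Vec d → ℝ}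
    (hF : Measurable F) {B : ℝ} (hB : ∀ p, |F p| ≤ B) :
    Integrable (fun p => k p.1 * k p.2.1 * F p) (mu3 d) := by
  have i1 : Integrable (fun _ : Vec d => (1 : ℝ)) (surf d) := integrable_const 1
  have i2 : Integrable (fun q : Vec d × Vec d => k q.1 * 1) (volume.prod (surf d)) :=
    (kc_int h).mul_prod i1
  have i3 : Integrable (fun p : Vec d × Vec d × Vec d => k p.1 * (k p.2.1 * 1)) (mu3 d) :=
    (kc_int h).mul_prod i2
  have hm := h.cont.measurable
  refine Integrable.mono' (i3.const_mul B) ?_ (Eventually.of_forall fun p => ?_)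
  · exact (((hm.comp measurable_fst).mul (hm.comp (measurable_fst.comp measurable_snd))).mul
      hF).aestronglyMeasurable
  · have h1 := h.nn p.1
    have h2 := h.nn p.2.1
    rw [Real.norm_eq_abs, abs_mul, abs_of_nonneg (mul_nonneg h1 h2), mul_one, mul_comm B]
    exact mul_le_mul_of_nonneg_left (hB p) (mul_nonneg h1 h2)

theorem kc_core (K : ℝ) {c : ℝ} (hc : 0 < c) : ∃ R₀ > 0, ∀ k : Vec d → ℝ, KC K c k →
    c / 2 ≤ ∫ v in Bl d R₀, k v := by
  set I : ℝ := ∫ v : Vec d, Real.exp (-(1 / 2 * nsq v)) with hI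
  have hI0 : 0 < I := exp_pos_int (by norm_num)
  set y : ℝ := 2 * (|K| * I) / c with hy
  have hy0 : 0 ≤ y := by positivity
  have hR : 0 < 1 + y := by linarith
  refine ⟨1 + y, hR, fun k h => ?_⟩
  have hsplit := integral_add_compl (bl_meas (d := d) (1 + y)) (kc_int h)
  have hex : Real.exp (-(1 / 2 * (1 + y) ^ 2)) * (1 + y) ≤ 1 := by
    have e1 := Real.add_one_le_exp (1 / 2 * (1 + y) ^ 2)
    have e2 : (1 + y) ≤ Real.exp (1 / 2 * (1 + y) ^ 2) := by
      have : 0 ≤ (1 + y - 1) ^ 2 := sq_nonneg _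
      linarith
    calc Real.exp (-(1 / 2 * (1 + y) ^ 2)) * (1 + y)
        ≤ Real.exp (-(1 / 2 * (1 + y) ^ 2)) * Real.exp (1 / 2 * (1 + y) ^ 2) :=
          mul_le_mul_of_nonneg_left e2 (Real.exp_pos _).le
      _ = 1 := by rw [← Real.exp_add, neg_add_cancel, Real.exp_zero]
  have hpt : ∀ v ∈ (Bl d (1 + y))ᶜ, k v ≤
      |K| * Real.exp (-(1 / 2 * (1 + y) ^ 2)) * Real.exp (-(1 / 2 * nsq v)) := by
    intro v hv
    have hv1 : 1 + y < len v := not_le.1 hv
    have hv2 : (1 + y) ^ 2 ≤ nsq v := by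
      have h1 : len v ^ 2 = nsq v := Real.sq_sqrt (sq_nonneg' v)
      rw [← h1]
      exact pow_le_pow_left₀ hR.le hv1.le 2
    have h3 : gau v ≤ Real.exp (-(1 / 2 * (1 + y) ^ 2)) * Real.exp (-(1 / 2 * nsq v)) := by
      rw [← Real.exp_add]
      show Real.exp (-nsq v) ≤ _
      refine Real.exp_le_exp.2 ?_
      linarith
    calc k v ≤ K * gau v := h.le v
      _ ≤ |K| * gau v := mul_le_mul_of_nonneg_right (le_abs_self K) (Bas_gau_pos v).le
      _ ≤ |K| * (Real.exp (-(1 / 2 * (1 + y) ^ 2)) * Real.exp (-(1 / 2 * nsq v))) :=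
          mul_le_mul_of_nonneg_left h3 (abs_nonneg K)
      _ = _ := by ring
  have hint : Integrable (fun v : Vec d =>
      |K| * Real.exp (-(1 / 2 * (1 + y) ^ 2)) * Real.exp (-(1 / 2 * nsq v))) :=
    (exp_int (by norm_num)).const_mul _
  have h4 : ∫ v in (Bl d (1 + y))ᶜ, k v ≤ c / 2 := by
    calc ∫ v in (Bl d (1 + y))ᶜ, k v
        ≤ ∫ v in (Bl d (1 + y))ᶜ,
            |K| * Real.exp (-(1 / 2 * (1 + y) ^ 2)) * Real.exp (-(1 / 2 * nsq v)) :=
          setIntegral_mono_on (kc_int h).integrableOn hint.integrableOn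
            (bl_meas (1 + y)).compl hpt
      _ ≤ ∫ v : Vec d, |K| * Real.exp (-(1 / 2 * (1 + y) ^ 2)) * Real.exp (-(1 / 2 * nsq v)) :=
          setIntegral_le_integral hint (Eventually.of_forall fun v => by positivity)
      _ = |K| * I * Real.exp (-(1 / 2 * (1 + y) ^ 2)) := by
          rw [integral_const_mul]; ring
      _ ≤ c / 2 := by
          have e3 : |K| * I = c / 2 * y := by
            rw [hy]; field_simp
          rw [e3]
          have e4 : y * Real.exp (-(1 / 2 * (1 + y) ^ 2)) ≤ 1 := by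
            have := Real.exp_pos (-(1 / 2 * (1 + y) ^ 2))
            linarith
          have e5 := mul_le_mul_of_nonneg_left e4 (by linarith : 0 ≤ c / 2)
          linarith
  have h5 := h.mass
  linarith

end Pool.Agent.H19.SL
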