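import Pool.Agent.H19.SL.Bas

/-!
# Module GrA: the gain term of the gradient test function vanishes

`post - post' = len (v-w) • σ` (`post_sub_post'`), `eN a p v' * eN a q w' = exp(-a(|v'|²+|w'|²) + 2a(p·v'+q·w'))`. For `nsq σ = 1`: `|v'|²+|w'|² = |v|²+|w|²` (`energy_post`), and `v' = (v+w)/2 + (|V|/2)σ`, `w' = (v+w)/2 - (|V|/2)σ` give `p·v'+q·w' = (p+q)·(v+w)/2 + (|V|/2)(p-q)·σ`. If `τ = 0` the integrand is `0`. Otherwise let `n = (len τ)⁻¹ • τ`, `nsq n = 1`. The map `σ ↦ -refl n σ = σ - 2(n·σ)n` preserves `surf d` (`refl_preserving`, `neg_preserving`), changes `τ·σ` to `-τ·σ` and leaves `(p-q)·σ` unchanged (`(p-q)·n = 0`). So for fixed `v, w` the integral in `σ` of the function `f(σ) = (τ·σ) exp(.. (p-q)·σ)` equals minus itself. Fubini: either work with the measure preserving map `(v,w,σ) ↦ (v,w,-refl n σ)` of `mu3 d` (`MeasurePreserving.prod` of identities) and `integral_comp_mp`: `∫ F = ∫ F ∘ T = -∫ F` (a.e. `nsq σ = 1` by `ae_good`; no integrability is needed), which is the shortest way. `F` is measurable: all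 functions are continuous.
-/

set_option autoImplicit false

open MeasureTheory Set Filter Topology Pool.Agent.H25.Kin
open Pool.Agent.H37.LT

namespace Pool.Agent.H19.SL

variable {d : ℕ}

private lemma grA_exp {a : ℝ} {p q v w σ : Vec d} (hσ : nsq σ = 1) :
    eN a p (post v w σ) * eN a q (post' v w σ) =
      Real.exp (-(a * (nsq v + nsq w)) +
        2 * a * ((1 / 2) * (dot p (v + w) + dot q (v + w)) + len (v - w) / 2 * dot (p - q) σ)) := by
  unfold eN
  rw [← Real.exp_add]
  congr 1
  have h1 := energy_post (v := v) (w := w) hσ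
  have h2 : dot p (post v w σ) = (1 / 2) * dot p (v + w) + len (v - w) / 2 * dot p σ := by
    unfold post
    rw [dot_add, dot_smul, dot_smul]
  have h3 : dot q (post' v w σ) = (1 / 2) * dot q (v + w) - len (v - w) / 2 * dot q σ := by
    unfold post'
    rw [dot_sub, dot_smul, dot_smul]
  have h4 : dot (p - q) σ = dot p σ - dot q σ := by
    rw [dot_comm, dot_sub, dot_comm σ p, dot_comm σ q]
  rw [h2, h3, h4, ← h1]
  ring

private lemma grA_cont (a : ℝ) (p : Vec d) : Continuous (eN a p) := by
  unfold eN
  exact Real.continuous_exp.comp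
    (((continuous_const.mul continuous_sq).neg).add (continuous_const.mul (dot_cont p)))

theorem grad_zero (hd : 2 ≤ d) {K c a : ℝ} {k : Vec d → ℝ} (h : KC K c k) {p q τ : Vec d}
    (hτ : dot τ (p - q) = 0) :
    ∫ x, k x.1 * k x.2.1 * (dot τ (post x.1 x.2.1 x.2.2 - post' x.1 x.2.1 x.2.2) *
      eN a p (post x.1 x.2.1 x.2.2) * eN a q (post' x.1 x.2.1 x.2.2)) ∂(mu3 d) = 0 := by
  have hd1 : 1 ≤ d := by omega
  by_cases hτ0 : τ = 0
  · have h1 : ∀ x : Vec d × Vec d × Vec d,
        k x.1 * k x.2.1 * (dot τ (post x.1 x.2.1 x.2.2 - post' x.1 x.2.1 x.2.2) *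
          eN a p (post x.1 x.2.1 x.2.2) * eN a q (post' x.1 x.2.1 x.2.2)) = 0 := by
      intro x
      have h2 : dot τ (post x.1 x.2.1 x.2.2 - post' x.1 x.2.1 x.2.2) = 0 := by
        rw [hτ0]
        unfold dot
        simp
      rw [h2, zero_mul, zero_mul, mul_zero]
    simp_rw [h1]
    exact integral_zero _ _
  · have hl : 0 < len τ := len_pos hτ0
    set n : Vec d := (len τ)⁻¹ • τ with hn
    have hnn : nsq n = 1 := by
      rw [← dot_self, hn, smul_dot, dot_smul, dot_self, ← len_sq τ]
      field_simp
    have hT : MeasurePreserving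
        (Prod.map (id : Vec d → Vec d) (Prod.map (id : Vec d → Vec d)
          ((fun σ : Vec d => -σ) ∘ refl n))) (mu3 d) (mu3 d) :=
      (MeasurePreserving.id _).prod ((MeasurePreserving.id _).prod
        ((neg_preserving hd1).comp (refl_preserving hd1 hnn)))
    set F : Vec d × Vec d × Vec d → ℝ := fun x =>
      k x.1 * k x.2.1 * (dot τ (post x.1 x.2.1 x.2.2 - post' x.1 x.2.1 x.2.2) *
        eN a p (post x.1 x.2.1 x.2.2) * eN a q (post' x.1 x.2.1 x.2.2)) with hF
    have hFc : Continuous F := by
      have c1 : Continuous fun x : Vec d × Vec d × Vec d => k x.1 := h.cont.comp continuous_fst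
      have c2 : Continuous fun x : Vec d × Vec d × Vec d => k x.2.1 :=
        h.cont.comp (continuous_fst.comp continuous_snd)
      have c3 : Continuous fun x : Vec d × Vec d × Vec d =>
          dot τ (post x.1 x.2.1 x.2.2 - post' x.1 x.2.1 x.2.2) :=
        (dot_cont τ).comp (continuous_post.sub continuous_post')
      have c4 : Continuous fun x : Vec d × Vec d × Vec d => eN a p (post x.1 x.2.1 x.2.2) :=
        (grA_cont a p).comp continuous_post
      have c5 : Continuous fun x : Vec d × Vec d × Vec d => eN a q (post' x.1 x.2.1 x.2.2) :=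
        (grA_cont a q).comp continuous_post'
      exact (c1.mul c2).mul ((c3.mul c4).mul c5)
    have h1 := integral_comp_mp hT hFc.measurable
    have h2 : ∫ x, F (Prod.map (id : Vec d → Vec d) (Prod.map (id : Vec d → Vec d)
          ((fun σ : Vec d => -σ) ∘ refl n)) x) ∂(mu3 d) = ∫ x, -F x ∂(mu3 d) := by
      refine integral_congr_ae ?_
      filter_upwards [ae_good hd1] with x hx
      obtain ⟨v, w, σ⟩ := x
      have hσ : nsq σ = 1 := hx.2
      have hσ' : nsq (-(refl n σ)) = 1 := by
        rw [← dot_self, dot_neg, neg_dot, neg_neg, dot_self, nsq_refl hnn, hσ]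
      have e1 : dot τ (-(refl n σ)) = -dot τ σ := by
        rw [dot_neg, refl_apply, dot_sub, dot_smul, hn, dot_smul, smul_dot, dot_self, ← len_sq τ]
        field_simp
        ring
      have e2 : dot (p - q) (-(refl n σ)) = dot (p - q) σ := by
        rw [dot_neg, refl_apply, dot_sub, dot_smul, hn, dot_smul, dot_comm (p - q) τ, hτ]
        ring
      show k v * k w * (dot τ (post v w (-(refl n σ)) - post' v w (-(refl n σ))) *
          eN a p (post v w (-(refl n σ))) * eN a q (post' v w (-(refl n σ)))) =
        -(k v * k w * (dot τ (post v w σ - post' v w σ) *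
          eN a p (post v w σ) * eN a q (post' v w σ)))
      rw [mul_assoc (dot τ _), mul_assoc (dot τ _), grA_exp hσ, grA_exp hσ', e2, post_sub_post',
        post_sub_post', dot_smul, dot_smul, e1]
      ring
    rw [h2, integral_neg] at h1
    linarith

end Pool.Agent.H19.SL
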