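import Pool.Agent.H19.SL.GrA

/-!
# Module GrB: the gradient estimate

* `nn_low`: `R₀` of `kc_core` (`Bas`): `∫_{Bl R₀} k ≥ c/2`, and `eN a p v ≥ exp(-a R₀² - 2a R R₀)` for `len v ≤ R₀`, `len p ≤ R` (Cauchy-Schwarz `|p·v| ≤ len p len v`, from `dot_sq_le`).
* `nn_int`: `|eN a p v| ≤ exp(a|p|²)` (complete the square: `-a|v|²+2a p·v = -a|v-p|²+a|p|²`), `k` is integrable; `|v i| eN ≤ len v exp(-a|v-p|²) exp(a|p|²)` is bounded.
* `grad`: `Ψ(v,w) = dot τ (v-w) * eN a p v * eN a q w` is continuous and `|Ψ| ≤ B₁ len τ`, `B₁ = B₁(a,R)`: `|τ·(v-w)| ≤ len τ (len v + len w)`, `eN a p v ≤ exp(-a|v|²+2aR len v)` and `(1 + x) exp(-a x² + 2aR x)` is bounded for `x ≥ 0`. `Fw D k` with `B = B₁ len τ`: the gain term is `0` by `grad_zero`, and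
`∫ k(v)k(w)Ψ(v,w) dmu3 = s0 (A_p NN(q) - NN(p) A_q)`, `A_p = ∫ τ·v k eN(p,v) = NN(p) τ·mN(p)` (finite sum of `∫ v i ..`), so it equals `s0 NN(p) NN(q) τ·(mN p - mN q)` (product integrals: `integral_prod_mul`; `kk_int` splits `Ψ - Ψ'`, the second function is bounded by `B₁ len τ` too). With `NN ≥ δ`: `|τ·(mN p - mN q)| ≤ D B₁ len τ/(s0 δ²)`. `D ≥ 0` follows from `Fw D k` with `Ψ = 0`, `B = 1`.
-/

set_option autoImplicit false

open MeasureTheory Set Filter Topology Pool.Agent.H25.Kin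
open Pool.Agent.H37.LT

namespace Pool.Agent.H19.SL

variable {d : ℕ}

private theorem GrB_dot_le (u v : Vec d) : |dot u v| ≤ len u * len v := by
  refine abs_le_of_sq_le_sq ?_ (mul_nonneg (len_nonneg u) (len_nonneg v))
  rw [mul_pow, len_sq, len_sq]
  exact dot_sq_le u v

private theorem GrB_coord (v : Vec d) (i : Fin d) : |v i| ≤ len v := by
  have h := (norm_le_pi_norm v i).trans (norm_le_len v)
  rwa [Real.norm_eq_abs] at h

private theorem GrB_real {a R l m : ℝ} (ha : 0 < a) (hR : 0 ≤ R) (hm : m ≤ R * l) :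
    Real.exp (-(a * l ^ 2) + 2 * a * m) ≤ Real.exp (a * R ^ 2) ∧
    l * Real.exp (-(a * l ^ 2) + 2 * a * m) ≤ (R + 1 + 1 / a) * Real.exp (a * R ^ 2) := by
  have h1 : -(a * l ^ 2) + 2 * a * m ≤ -(a * (l - R) ^ 2) + a * R ^ 2 := by nlinarith
  have hE : Real.exp (-(a * l ^ 2) + 2 * a * m) ≤
      Real.exp (-(a * (l - R) ^ 2)) * Real.exp (a * R ^ 2) := by
    rw [← Real.exp_add]
    exact Real.exp_le_exp.2 h1
  have hy0 : 0 ≤ a * (l - R) ^ 2 := mul_nonneg ha.le (sq_nonneg _)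
  have hE1 : Real.exp (-(a * (l - R) ^ 2)) ≤ 1 := Real.exp_le_one_iff.2 (neg_nonpos.2 hy0)
  have hEp : 0 < Real.exp (-(a * (l - R) ^ 2)) := Real.exp_pos _
  have hRp : 0 < Real.exp (a * R ^ 2) := Real.exp_pos _
  have h2 : a * (l - R) ^ 2 * Real.exp (-(a * (l - R) ^ 2)) ≤ 1 := by
    have e1 : a * (l - R) ^ 2 ≤ Real.exp (a * (l - R) ^ 2) := by
      have := Real.add_one_le_exp (a * (l - R) ^ 2)
      linarith
    have e2 := mul_le_mul_of_nonneg_right e1 hEp.le
    rwa [← Real.exp_add, add_neg_cancel, Real.exp_zero] at e2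
  have h3 : (l - R) ^ 2 * Real.exp (-(a * (l - R) ^ 2)) ≤ 1 / a := by
    rw [le_div_iff₀ ha]
    linarith
  have h4 : l ≤ R + 1 + (l - R) ^ 2 := by nlinarith [sq_nonneg (l - R - 1)]
  refine ⟨hE.trans ?_, ?_⟩
  · calc Real.exp (-(a * (l - R) ^ 2)) * Real.exp (a * R ^ 2) ≤ 1 * Real.exp (a * R ^ 2) :=
          mul_le_mul_of_nonneg_right hE1 hRp.le
      _ = Real.exp (a * R ^ 2) := one_mul _
  · have h5 : l * Real.exp (-(a * l ^ 2) + 2 * a * m) ≤
        (R + 1 + (l - R) ^ 2) * Real.exp (-(a * l ^ 2) + 2 * a * m) :=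
      mul_le_mul_of_nonneg_right h4 (Real.exp_pos _).le
    have h6 : 0 ≤ R + 1 + (l - R) ^ 2 := by positivity
    have h7 : (R + 1 + (l - R) ^ 2) * Real.exp (-(a * (l - R) ^ 2)) ≤ R + 1 + 1 / a := by
      have e1 : (R + 1) * Real.exp (-(a * (l - R) ^ 2)) ≤ (R + 1) * 1 :=
        mul_le_mul_of_nonneg_left hE1 (by linarith)
      linarith
    calc l * Real.exp (-(a * l ^ 2) + 2 * a * m)
        ≤ (R + 1 + (l - R) ^ 2) * Real.exp (-(a * l ^ 2) + 2 * a * m) := h5
      _ ≤ (R + 1 + (l - R) ^ 2) * (Real.exp (-(a * (l - R) ^ 2)) * Real.exp (a * R ^ 2)) :=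
        mul_le_mul_of_nonneg_left hE h6
      _ = (R + 1 + (l - R) ^ 2) * Real.exp (-(a * (l - R) ^ 2)) * Real.exp (a * R ^ 2) := by ring
      _ ≤ (R + 1 + 1 / a) * Real.exp (a * R ^ 2) := mul_le_mul_of_nonneg_right h7 hRp.le

private theorem GrB_eN {a R : ℝ} (ha : 0 < a) (hR : 0 ≤ R) {p : Vec d} (hp : len p ≤ R)
    (v : Vec d) : eN a p v ≤ Real.exp (a * R ^ 2) ∧
    len v * eN a p v ≤ (R + 1 + 1 / a) * Real.exp (a * R ^ 2) := by
  have hm : dot p v ≤ R * len v :=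
    (le_abs_self _).trans ((GrB_dot_le p v).trans (mul_le_mul_of_nonneg_right hp (len_nonneg v)))
  have h := GrB_real ha hR hm
  rw [len_sq] at h
  exact h

private theorem GrB_eN_pos (a : ℝ) (p v : Vec d) : 0 < eN a p v := Real.exp_pos _

private theorem GrB_eN_cont (a : ℝ) (p : Vec d) : Continuous fun v : Vec d => eN a p v := by
  unfold eN nsq dot
  fun_prop

private theorem GrB_int {K c a : ℝ} {k : Vec d → ℝ} (ha : 0 < a) (h : KC K c k) (p : Vec d) :
    Integrable (fun v => k v * eN a p v) ∧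
    ∀ i : Fin d, Integrable (fun v : Vec d => v i * (k v * eN a p v)) := by
  have hk := kc_int h
  have hR : 0 ≤ len p := len_nonneg p
  constructor
  · refine Integrable.mono' (hk.mul_const (Real.exp (a * len p ^ 2)))
      (h.cont.mul (GrB_eN_cont a p)).aestronglyMeasurable (Eventually.of_forall fun v => ?_)
    rw [Real.norm_eq_abs, abs_of_nonneg (mul_nonneg (h.nn v) (GrB_eN_pos a p v).le)]
    exact mul_le_mul_of_nonneg_left (GrB_eN ha hR le_rfl v).1 (h.nn v)
  · intro i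
    refine Integrable.mono' (hk.mul_const ((len p + 1 + 1 / a) * Real.exp (a * len p ^ 2)))
      ((continuous_apply i).mul (h.cont.mul (GrB_eN_cont a p))).aestronglyMeasurable
      (Eventually.of_forall fun v => ?_)
    rw [Real.norm_eq_abs, abs_mul,
      abs_of_nonneg (mul_nonneg (h.nn v) (GrB_eN_pos a p v).le)]
    calc |v i| * (k v * eN a p v) ≤ len v * (k v * eN a p v) :=
          mul_le_mul_of_nonneg_right (GrB_coord v i) (mul_nonneg (h.nn v) (GrB_eN_pos a p v).le)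
      _ = k v * (len v * eN a p v) := by ring
      _ ≤ k v * ((len p + 1 + 1 / a) * Real.exp (a * len p ^ 2)) :=
        mul_le_mul_of_nonneg_left (GrB_eN ha hR le_rfl v).2 (h.nn v)

private theorem GrB_D {D : ℝ} {k : Vec d → ℝ} (hF : Fw D k) : 0 ≤ D := by
  have h := hF 1 (fun _ => 0) continuous_const (fun q => by rw [abs_zero]; exact zero_le_one)
  exact (abs_nonneg _).trans (h.trans_eq (mul_one D))

/-- the product integral -/
private theorem GrB_prod (f g : Vec d → ℝ) :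
    ∫ x : Vec d × Vec d × Vec d, f x.1 * g x.2.1 ∂(mu3 d) = s0 d * ((∫ v, f v) * ∫ w, g w) := by
  have h1 := integral_prod_mul (μ := (volume : Measure (Vec d)))
    (ν := (volume : Measure (Vec d)).prod (surf d)) f (fun y : Vec d × Vec d => g y.1 * 1)
  have h2 := integral_prod_mul (μ := (volume : Measure (Vec d))) (ν := surf d) g (fun _ => (1 : ℝ))
  have h3 : ∫ _ : Vec d, (1 : ℝ) ∂(surf d) = s0 d := by
    rw [integral_const, smul_eq_mul, mul_one]
    rfl
  rw [h2, h3] at h1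
  have h4 : ∫ x : Vec d × Vec d × Vec d, f x.1 * g x.2.1 ∂(mu3 d) =
      ∫ x : Vec d × Vec d × Vec d, f x.1 * (g x.2.1 * 1) ∂(mu3 d) := by
    refine integral_congr_ae (Eventually.of_forall fun x => ?_)
    change f x.1 * g x.2.1 = f x.1 * (g x.2.1 * 1)
    rw [mul_one]
  rw [h4]
  refine h1.trans ?_
  ring

private theorem GrB_pint {f g : Vec d → ℝ} (hf : Integrable f) (hg : Integrable g) :
    Integrable (fun x : Vec d × Vec d × Vec d => f x.1 * g x.2.1) (mu3 d) := by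
  have h1 : Integrable (fun y : Vec d × Vec d => g y.1 * 1)
      ((volume : Measure (Vec d)).prod (surf d)) := hg.mul_prod (integrable_const (1 : ℝ))
  have h2 := hf.mul_prod h1
  refine h2.congr (Eventually.of_forall fun x => ?_)
  change f x.1 * (g x.2.1 * 1) = f x.1 * g x.2.1
  rw [mul_one]

private theorem GrB_A {K c a : ℝ} {k : Vec d → ℝ} (ha : 0 < a) (h : KC K c k) (p τ : Vec d)
    (hN : NN a k p ≠ 0) : Integrable (fun v => dot τ v * (k v * eN a p v)) ∧
    ∫ v, dot τ v * (k v * eN a p v) = NN a k p * dot τ (mN a k p) := by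
  have hi := (GrB_int ha h p).2
  have he : (fun v : Vec d => dot τ v * (k v * eN a p v)) =
      fun v => ∑ i, τ i * (v i * (k v * eN a p v)) := by
    funext v
    unfold dot
    rw [Finset.sum_mul]
    exact Finset.sum_congr rfl fun i _ => by ring
  have hii : ∀ i ∈ Finset.univ, Integrable fun v : Vec d => τ i * (v i * (k v * eN a p v)) :=
    fun i _ => (hi i).const_mul _
  refine ⟨?_, ?_⟩
  · rw [he]
    exact integrable_finsetSum _ hii
  · rw [he, integral_finsetSum _ hii]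
    unfold dot mN
    rw [Finset.mul_sum]
    refine Finset.sum_congr rfl fun i _ => ?_
    rw [integral_const_mul]
    field_simp

theorem nn_low (d : ℕ) (K : ℝ) {c a R : ℝ} (hc : 0 < c) (ha : 0 < a) (hR : 0 < R) : ∃ δ > 0,
    ∀ (k : Vec d → ℝ) (p : Vec d), KC K c k → len p ≤ R → δ ≤ NN a k p := by
  obtain ⟨R₀, hR₀, hcore⟩ := kc_core (d := d) K hc
  set E : ℝ := Real.exp (-(a * R₀ ^ 2) - 2 * a * (R * R₀)) with hE
  have hEp : 0 < E := Real.exp_pos _
  refine ⟨c / 2 * E, by positivity, fun k p hk hp => ?_⟩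
  have hint := (GrB_int ha hk p).1
  have h1 : ∫ v in Bl d R₀, k v * E ≤ ∫ v in Bl d R₀, k v * eN a p v := by
    refine setIntegral_mono_on ((kc_int hk).mul_const E).integrableOn hint.integrableOn
      (bl_meas R₀) fun v hv => ?_
    refine mul_le_mul_of_nonneg_left ?_ (hk.nn v)
    have hv' : len v ≤ R₀ := hv
    have hl := len_nonneg v
    have h2 : nsq v ≤ R₀ ^ 2 := by
      rw [← len_sq]
      exact pow_le_pow_left₀ hl hv' 2
    have h3 : -(R * R₀) ≤ dot p v := by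
      have e1 := GrB_dot_le p v
      have e2 : len p * len v ≤ R * R₀ := mul_le_mul hp hv' hl hR.le
      exact (abs_le.1 (e1.trans e2)).1
    refine Real.exp_le_exp.2 ?_
    have h4 := mul_le_mul_of_nonneg_left h2 ha.le
    have h5 := mul_le_mul_of_nonneg_left h3 (by positivity : (0 : ℝ) ≤ 2 * a)
    linarith
  have h6 : ∫ v in Bl d R₀, k v * eN a p v ≤ NN a k p :=
    setIntegral_le_integral hint
      (Eventually.of_forall fun v => mul_nonneg (hk.nn v) (GrB_eN_pos a p v).le)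
  refine le_trans ?_ (h1.trans h6)
  rw [integral_mul_const]
  exact mul_le_mul_of_nonneg_right (hcore k hk) hEp.le

theorem nn_int {K c a : ℝ} {k : Vec d → ℝ} (ha : 0 < a) (h : KC K c k) (p : Vec d) :
    Integrable (fun v => k v * eN a p v) ∧
    ∀ i : Fin d, Integrable (fun v : Vec d => v i * (k v * eN a p v)) := by
  exact GrB_int ha h p

theorem grad (hd : 2 ≤ d) (K : ℝ) {c a R : ℝ} (hc : 0 < c) (ha : 0 < a) (hR : 0 < R) :
    ∃ C : ℝ, 0 ≤ C ∧ ∀ (k : Vec d → ℝ) (D : ℝ) (p q τ : Vec d), KC K c k → Fw D k → len p ≤ R →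
      len q ≤ R → dot τ (p - q) = 0 → |dot τ (mN a k p - mN a k q)| ≤ C * D * len τ := by
  obtain ⟨δ, hδ, hlow⟩ := nn_low d K hc ha hR
  have hs := s0_pos (d := d) (by omega)
  set A : ℝ := (R + 1 + 1 / a) * Real.exp (a * R ^ 2) with hA
  set B : ℝ := Real.exp (a * R ^ 2) with hB
  have hBp : 0 < B := Real.exp_pos _
  have hAp : 0 < A := by positivity
  refine ⟨2 * A * B / (s0 d * δ ^ 2), by positivity, fun k D p q τ hk hF hp hq hτ => ?_⟩
  have hD := GrB_D hF
  have hNp := hlow k p hk hp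
  have hNq := hlow k q hk hq
  have hNp0 : 0 < NN a k p := hδ.trans_le hNp
  have hNq0 : 0 < NN a k q := hδ.trans_le hNq
  have hτ0 := len_nonneg τ
  -- the test function
  set Ψ : Vec d × Vec d → ℝ := fun z => dot τ (z.1 - z.2) * eN a p z.1 * eN a q z.2 with hΨ
  have hΨc : Continuous Ψ := by
    have h1 : Continuous fun z : Vec d × Vec d => dot τ (z.1 - z.2) :=
      (dot_cont τ).comp (by fun_prop)
    exact (h1.mul ((GrB_eN_cont a p).comp continuous_fst)).mul
      ((GrB_eN_cont a q).comp continuous_snd)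
  have hΨb : ∀ z, |Ψ z| ≤ 2 * A * B * len τ := by
    intro z
    have e1 := GrB_dot_le τ z.1
    have e2 := GrB_dot_le τ z.2
    obtain ⟨e3, e4⟩ := GrB_eN ha hR.le hp z.1
    obtain ⟨e5, e6⟩ := GrB_eN ha hR.le hq z.2
    have p1 := GrB_eN_pos a p z.1
    have p2 := GrB_eN_pos a q z.2
    have e7 : |dot τ (z.1 - z.2)| ≤ len τ * len z.1 + len τ * len z.2 := by
      rw [dot_sub]
      exact (abs_sub _ _).trans (add_le_add e1 e2)
    have e8 : |Ψ z| = |dot τ (z.1 - z.2)| * (eN a p z.1 * eN a q z.2) := by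
      rw [hΨ]
      change |dot τ (z.1 - z.2) * eN a p z.1 * eN a q z.2| = _
      rw [mul_assoc, abs_mul, abs_of_pos (mul_pos p1 p2)]
    rw [e8]
    have e9 : len z.1 * eN a p z.1 * eN a q z.2 ≤ A * B :=
      mul_le_mul e4 e5 p2.le hAp.le
    have e10 : len z.2 * eN a q z.2 * eN a p z.1 ≤ A * B :=
      mul_le_mul e6 e3 p1.le hAp.le
    calc |dot τ (z.1 - z.2)| * (eN a p z.1 * eN a q z.2)
        ≤ (len τ * len z.1 + len τ * len z.2) * (eN a p z.1 * eN a q z.2) :=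
          mul_le_mul_of_nonneg_right e7 (mul_pos p1 p2).le
      _ = len τ * (len z.1 * eN a p z.1 * eN a q z.2) +
          len τ * (len z.2 * eN a q z.2 * eN a p z.1) := by ring
      _ ≤ len τ * (A * B) + len τ * (A * B) :=
          add_le_add (mul_le_mul_of_nonneg_left e9 hτ0) (mul_le_mul_of_nonneg_left e10 hτ0)
      _ = 2 * A * B * len τ := by ring
  have hmain := hF (2 * A * B * len τ) Ψ hΨc hΨb
  -- the gain term
  have hpc : Continuous fun x : Vec d × Vec d × Vec d =>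
      (post x.1 x.2.1 x.2.2, post' x.1 x.2.1 x.2.2) := continuous_post.prodMk continuous_post'
  have hI1 : Integrable (fun x : Vec d × Vec d × Vec d => k x.1 * k x.2.1 * Ψ (x.1, x.2.1))
      (mu3 d) :=
    kk_int (F := fun x : Vec d × Vec d × Vec d => Ψ (x.1, x.2.1)) hk
      (hΨc.comp (by fun_prop : Continuous fun x : Vec d × Vec d × Vec d =>
        (x.1, x.2.1))).measurable fun x => hΨb _
  have hI2 : Integrable (fun x : Vec d × Vec d × Vec d => k x.1 * k x.2.1 *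
      Ψ (post x.1 x.2.1 x.2.2, post' x.1 x.2.1 x.2.2)) (mu3 d) :=
    kk_int (F := fun x : Vec d × Vec d × Vec d => Ψ (post x.1 x.2.1 x.2.2, post' x.1 x.2.1 x.2.2))
      hk (hΨc.comp hpc).measurable fun x => hΨb _
  have hgain : ∫ x : Vec d × Vec d × Vec d, k x.1 * k x.2.1 *
      Ψ (post x.1 x.2.1 x.2.2, post' x.1 x.2.1 x.2.2) ∂(mu3 d) = 0 :=
    grad_zero hd hk hτ
  -- the loss term
  obtain ⟨ip, Ap⟩ := GrB_A ha hk p τ hNp0.ne'
  obtain ⟨iq, Aq⟩ := GrB_A ha hk q τ hNq0.ne'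
  have jp := (GrB_int ha hk p).1
  have jq := (GrB_int ha hk q).1
  have hloss : ∫ x : Vec d × Vec d × Vec d, k x.1 * k x.2.1 * Ψ (x.1, x.2.1) ∂(mu3 d) =
      s0 d * (NN a k p * NN a k q * dot τ (mN a k p - mN a k q)) := by
    have e1 : (fun x : Vec d × Vec d × Vec d => k x.1 * k x.2.1 * Ψ (x.1, x.2.1)) = fun x =>
        (dot τ x.1 * (k x.1 * eN a p x.1)) * (k x.2.1 * eN a q x.2.1) -
        (k x.1 * eN a p x.1) * (dot τ x.2.1 * (k x.2.1 * eN a q x.2.1)) := by
      funext x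
      rw [hΨ]
      change k x.1 * k x.2.1 * (dot τ (x.1 - x.2.1) * eN a p x.1 * eN a q x.2.1) = _
      rw [dot_sub]
      ring
    rw [e1, integral_sub (GrB_pint ip jq) (GrB_pint jp iq)]
    rw [GrB_prod (fun v => dot τ v * (k v * eN a p v)) (fun w => k w * eN a q w),
      GrB_prod (fun v => k v * eN a p v) (fun w => dot τ w * (k w * eN a q w)), Ap, Aq, dot_sub]
    unfold NN
    ring
  have hdiff : ∫ x : Vec d × Vec d × Vec d, k x.1 * k x.2.1 * (Ψ (x.1, x.2.1) -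
      Ψ (post x.1 x.2.1 x.2.2, post' x.1 x.2.1 x.2.2)) ∂(mu3 d) =
      s0 d * (NN a k p * NN a k q * dot τ (mN a k p - mN a k q)) := by
    rw [← hloss, ← sub_zero (∫ x : Vec d × Vec d × Vec d, k x.1 * k x.2.1 * Ψ (x.1, x.2.1)
      ∂(mu3 d)), ← hgain, ← integral_sub hI1 hI2]
    refine integral_congr_ae (Eventually.of_forall fun x => ?_)
    change k x.1 * k x.2.1 * (Ψ (x.1, x.2.1) -
      Ψ (post x.1 x.2.1 x.2.2, post' x.1 x.2.1 x.2.2)) = k x.1 * k x.2.1 * Ψ (x.1, x.2.1) -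
      k x.1 * k x.2.1 * Ψ (post x.1 x.2.1 x.2.2, post' x.1 x.2.1 x.2.2)
    rw [mul_sub]
  rw [hdiff, abs_mul, abs_of_pos hs, abs_mul, abs_of_pos (mul_pos hNp0 hNq0)] at hmain
  have hNN : δ ^ 2 ≤ NN a k p * NN a k q := by
    rw [sq]
    exact mul_le_mul hNp hNq hδ.le hNp0.le
  have hX := abs_nonneg (dot τ (mN a k p - mN a k q))
  have hsd : 0 < s0 d * δ ^ 2 := by positivity
  have h1 : s0 d * δ ^ 2 * |dot τ (mN a k p - mN a k q)| ≤ D * (2 * A * B * len τ) := by
    refine le_trans ?_ hmain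
    rw [mul_assoc]
    exact mul_le_mul_of_nonneg_left (mul_le_mul_of_nonneg_right hNN hX) hs.le
  have h2 : 2 * A * B / (s0 d * δ ^ 2) * D * len τ = D * (2 * A * B * len τ) / (s0 d * δ ^ 2) := by
    ring
  rw [h2, le_div_iff₀ hsd]
  linarith

end Pool.Agent.H19.SL
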