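import Pool.Agent.H19.SL.Defs

/-!
# Module TrL: continuity of translations in `L¹`

Choose a continuous function `g` with compact support and `∫ |h - g| ≤ ε/4` (`Integrable.exists_hasCompactSupport_integral_sub_le`, or `MeasureTheory.MemLp.exists_hasCompactSupport_integral_rpow_sub_le`). `g` is uniformly continuous (`Continuous.uniformContinuous_of_hasCompactSupport` or `HasCompactSupport.uniformContinuous_of_continuous`), so for `‖z‖ ≤ z₀ ≤ 1` the function `|g(·+z) - g|` is `≤ η` and vanishes outside the closed 1-thickening of the support, a set of finite measure. `∫ |h(ζ+z) - g(ζ+z)| = ∫ |h - g|` (`integral_add_right_eq_self`). `‖z‖ ≤ len z` (`norm_le_len`).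
-/

set_option autoImplicit false

open MeasureTheory Set Filter Topology Pool.Agent.H25.Kin

namespace Pool.Agent.H19.SL

variable {d : ℕ}

theorem tr_l1 {h : Vec d → ℝ} (hh : Integrable h) {ε : ℝ} (hε : 0 < ε) : ∃ z₀ > 0, ∀ z : Vec d,
    len z ≤ z₀ → ∫ ζ, |h (ζ + z) - h ζ| ≤ ε := by
  obtain ⟨g, hgs, hg, hgc, hgi⟩ :=
    hh.exists_hasCompactSupport_integral_sub_le (ε := ε / 4) (by positivity)
  have hgu : UniformContinuous g := hgs.uniformContinuous_of_continuous hgc
  have hK : IsCompact (Metric.cthickening 1 (tsupport g)) := IsCompact.cthickening hgs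
  have hKm : MeasurableSet (Metric.cthickening 1 (tsupport g)) :=
    Metric.isClosed_cthickening.measurableSet
  have hV0 : 0 ≤ volume.real (Metric.cthickening 1 (tsupport g)) := measureReal_nonneg
  generalize hVV : volume.real (Metric.cthickening 1 (tsupport g)) = V at hV0
  have hη : 0 < ε / (2 * (V + 1)) := by positivity
  obtain ⟨δ, hδ, hgδ⟩ := Metric.uniformContinuous_iff.1 hgu _ hη
  refine ⟨min 1 (δ / 2), by positivity, fun z hz => ?_⟩
  have hz1 : ‖z‖ ≤ 1 := (norm_le_len z).trans (hz.trans (min_le_left _ _))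
  have hzδ : ‖z‖ < δ := by
    have := (norm_le_len z).trans (hz.trans (min_le_right _ _))
    linarith
  have i1 : Integrable fun ζ => ‖h ζ - g ζ‖ := (hh.sub hgi).norm
  have i1' : Integrable fun ζ => ‖h (ζ + z) - g (ζ + z)‖ := i1.comp_add_right z
  have e1 : ∫ ζ, ‖h (ζ + z) - g (ζ + z)‖ = ∫ ζ, ‖h ζ - g ζ‖ :=
    integral_add_right_eq_self (fun ζ => ‖h ζ - g ζ‖) z
  have i2 : Integrable fun ζ => (Metric.cthickening 1 (tsupport g)).indicator
      (fun _ => ε / (2 * (V + 1))) ζ := by
    rw [integrable_indicator_iff hKm]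
    exact integrableOn_const hK.measure_lt_top.ne
  have e2 : ∫ ζ, (Metric.cthickening 1 (tsupport g)).indicator
      (fun _ => ε / (2 * (V + 1))) ζ ≤ ε / 2 := by
    rw [integral_indicator hKm, setIntegral_const, hVV, smul_eq_mul]
    have : V * (ε / (2 * (V + 1))) = V / (V + 1) * (ε / 2) := by field_simp
    rw [this]
    have h1 : V / (V + 1) ≤ 1 := by
      rw [div_le_one (by linarith)]
      linarith
    nlinarith
  have key : ∀ ζ, |h (ζ + z) - h ζ| ≤ ‖h (ζ + z) - g (ζ + z)‖ +
      (Metric.cthickening 1 (tsupport g)).indicator (fun _ => ε / (2 * (V + 1))) ζ +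
        ‖h ζ - g ζ‖ := by
    intro ζ
    have h1 : |g (ζ + z) - g ζ| ≤
        (Metric.cthickening 1 (tsupport g)).indicator (fun _ => ε / (2 * (V + 1))) ζ := by
      by_cases hζ : ζ ∈ Metric.cthickening 1 (tsupport g)
      · rw [indicator_of_mem hζ]
        have := hgδ (a := ζ + z) (b := ζ) (by rw [dist_eq_norm]; simpa using hzδ)
        rw [Real.dist_eq] at this
        exact this.le
      · rw [indicator_of_notMem hζ]
        have g1 : g ζ = 0 := by
          by_contra hne
          exact hζ (Metric.mem_cthickening_of_dist_le ζ ζ 1 _ (subset_tsupport g hne) (by simp))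
        have g2 : g (ζ + z) = 0 := by
          by_contra hne
          refine hζ (Metric.mem_cthickening_of_dist_le ζ (ζ + z) 1 _ (subset_tsupport g hne) ?_)
          rw [dist_eq_norm]
          simpa using hz1
        rw [g1, g2]
        simp
    have e : h (ζ + z) - h ζ = (h (ζ + z) - g (ζ + z)) + (g (ζ + z) - g ζ) + -(h ζ - g ζ) := by
      ring
    rw [e]
    refine (abs_add_le _ _).trans ?_
    rw [abs_neg]
    refine add_le_add ((abs_add_le _ _).trans (add_le_add ?_ h1)) ?_
    · exact le_of_eq (Real.norm_eq_abs _).symm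
    · exact le_of_eq (Real.norm_eq_abs _).symm
  have i3 : Integrable fun ζ => |h (ζ + z) - h ζ| := ((hh.comp_add_right z).sub hh).abs
  have i4 : Integrable fun ζ => ‖h (ζ + z) - g (ζ + z)‖ +
      (Metric.cthickening 1 (tsupport g)).indicator (fun _ => ε / (2 * (V + 1))) ζ := i1'.add i2
  calc ∫ ζ, |h (ζ + z) - h ζ| ≤ ∫ ζ, (‖h (ζ + z) - g (ζ + z)‖ +
      (Metric.cthickening 1 (tsupport g)).indicator (fun _ => ε / (2 * (V + 1))) ζ +
        ‖h ζ - g ζ‖) := integral_mono i3 (i4.add i1) key
    _ = (∫ ζ, ‖h ζ - g ζ‖) + (∫ ζ, (Metric.cthickening 1 (tsupport g)).indicator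
        (fun _ => ε / (2 * (V + 1))) ζ) + ∫ ζ, ‖h ζ - g ζ‖ := by
        rw [integral_add i4 i1, integral_add i1' i2, e1]
    _ ≤ ε / 4 + ε / 2 + ε / 4 := add_le_add (add_le_add hg e2) hg
    _ = ε := by ring

end Pool.Agent.H19.SL
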